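import Pool.Agent.Lib.DK.Pub.Defs

/-!
# MP_d0239a_nt: the field generated by the values of Weber's function at the torsion points, all lattices

`Λ = ℤ ω₁ + ℤ ω₂` is a lattice in `ℂ` (Mathlib's `PeriodPair`, with its invariants `g₂`, `g₃` and its
Weierstrass function `℘`), and `ι : Ω → ℂ` is an embedding of the algebraic closure `Ω` of `ℚ`.
-/

noncomputable section

namespace Pool.Agent.MuP

open Classical in
/-- Weber's function of the lattice `Λ`, `Δ = g₂³ - 27 g₃²`: `(g₂ g₃/Δ) ℘(z)` if `g₂ g₃ ≠ 0` (the general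
case), `(g₂²/Δ) ℘(z)²` if `g₃ = 0` and `(g₃/Δ) ℘(z)³` if `g₂ = 0`. -/
def weberFn (Λ : PeriodPair) (z : ℂ) : ℂ :=
  if Λ.g₃ = 0 then Λ.g₂ ^ 2 / (Λ.g₂ ^ 3 - 27 * Λ.g₃ ^ 2) * Λ.weierstrassP z ^ 2
  else if Λ.g₂ = 0 then Λ.g₃ / (Λ.g₂ ^ 3 - 27 * Λ.g₃ ^ 2) * Λ.weierstrassP z ^ 3
  else Λ.g₂ * Λ.g₃ / (Λ.g₂ ^ 3 - 27 * Λ.g₃ ^ 2) * Λ.weierstrassP z

/-- The field generated over `ℚ` by `ω₂/ω₁`, `j(Λ)` and the values of Weber's function at all nonzero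
torsion points of `ℂ/Λ`, inside of `Ω`: by all `a` in `Ω` such that `ι a` is one of these numbers. -/
def WeberFd (ι : Omega →+* ℂ) (Λ : PeriodPair) : Fd :=
  IntermediateField.adjoin ℚ {a : AlgebraicClosure ℚ |
    ι a = Λ.ω₂ / Λ.ω₁ ∨ ι a = jInv Λ ∨ ∃ z : ℂ, IsTorPt Λ z ∧ ι a = weberFn Λ z}

end Pool.Agent.MuP
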