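import Pool.Agent.Lib.DN.Pub.Defs
import Pool.Agent.Lib.DK.B.AllG

/-!
# MP_d0239a_nt: `g₂` and `g₃` are not zero for the rings of integers of `ℚ(√-d)`, `d ≠ 1, 3`

If `g₃(Λ) = 0` then `i Λ = Λ`, if `g₂(Λ) = 0` then `ρ Λ = Λ`, `ρ` a third root of unity: the lattice is determined
by its invariants.
-/

set_option autoImplicit false

noncomputable section

namespace Pool.Agent.MuP

open Pool.Agent.DKB (inL wp wd)

/-- If `c⁴ g₂ = g₂` and `c⁶ g₃ = g₃` then `c Λ = Λ`. -/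
theorem Nz_mul (Λ : PeriodPair) (c : ℂ) (hc : c ≠ 0) (h2 : c ^ 4 * Λ.g₂ = Λ.g₂)
    (h3 : c ^ 6 * Λ.g₃ = Λ.g₃) (z : ℂ) (hz : z ∈ Λ.lattice) : c * z ∈ Λ.lattice := by
  obtain ⟨M, hM⟩ := DKB.gScl.2.2 Λ c hc
  obtain ⟨-, -, -, e2, e3⟩ := DKB.gScl.1 Λ M c hc hM
  have hu := DKB.gUni Λ M (by rw [e2, h2]) (by rw [e3, h3]) z
  exact (hM z).1 (hu.1 hz)

/-- The lattice `ℤ + ℤ ω₂`. -/
private theorem Nz_mem (Λ : PeriodPair) (h1 : Λ.ω₁ = 1) (z : ℂ) (hz : z ∈ Λ.lattice) :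
    ∃ m n : ℤ, z = m + n * Λ.ω₂ := by
  rw [PeriodPair.mem_lattice] at hz
  obtain ⟨m, n, h⟩ := hz
  refine ⟨m, n, ?_⟩
  rw [← h, h1]
  ring

private theorem Nz_im (d : ℕ) (Λ : PeriodPair)
    (h2 : Λ.ω₂ = if d % 4 = 3 then (1 + √(d : ℝ) * Complex.I) / 2 else √(d : ℝ) * Complex.I) :
    Λ.ω₂.im = if d % 4 = 3 then √(d : ℝ) / 2 else √(d : ℝ) := by
  rw [h2]
  split_ifs
  · simp
  · simp

/-- The imaginary part of an element of `Λ`. -/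
private theorem Nz_sq (d : ℕ) (Λ : PeriodPair) (h1 : Λ.ω₁ = 1)
    (h2 : Λ.ω₂ = if d % 4 = 3 then (1 + √(d : ℝ) * Complex.I) / 2 else √(d : ℝ) * Complex.I)
    (z : ℂ) (hz : z ∈ Λ.lattice) :
    ∃ n : ℤ, 4 * z.im ^ 2 = (if d % 4 = 3 then 1 else 4) * (n : ℝ) ^ 2 * d := by
  obtain ⟨m, n, e⟩ := Nz_mem Λ h1 z hz
  refine ⟨n, ?_⟩
  have e1 : z.im = n * Λ.ω₂.im := by
    rw [e]
    simp
  have hs : √(d : ℝ) ^ 2 = d := Real.sq_sqrt (Nat.cast_nonneg d)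
  rw [e1, Nz_im d Λ h2]
  split_ifs
  · linear_combination (n : ℝ) ^ 2 * hs
  · linear_combination 4 * (n : ℝ) ^ 2 * hs

/-- **`g₃ ≠ 0`.** -/
theorem g3_ne (d : ℕ) (hd1 : d ≠ 1) (Λ : PeriodPair) (h1 : Λ.ω₁ = 1)
    (h2 : Λ.ω₂ = if d % 4 = 3 then (1 + √(d : ℝ) * Complex.I) / 2 else √(d : ℝ) * Complex.I) :
    Λ.g₃ ≠ 0 := by
  intro h
  have hone : (1 : ℂ) ∈ Λ.lattice := by
    rw [← h1]
    exact Λ.ω₁_mem_lattice
  have hI := Nz_mul Λ Complex.I Complex.I_ne_zero (by rw [Complex.I_pow_four, one_mul])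
    (by rw [h, mul_zero]) 1 hone
  rw [mul_one] at hI
  obtain ⟨n, hn⟩ := Nz_sq d Λ h1 h2 _ hI
  rw [Complex.I_im] at hn
  by_cases h4 : d % 4 = 3
  · rw [if_pos h4] at hn
    have e : (4 : ℤ) = n ^ 2 * d := by
      have : (4 : ℝ) = n ^ 2 * d := by linarith
      exact_mod_cast this
    have hdd : (d : ℤ) ∣ 4 := ⟨n ^ 2, by rw [e]; ring⟩
    have hdn : d ∣ 4 := by exact_mod_cast hdd
    have hle : d ≤ 4 := Nat.le_of_dvd (by norm_num) hdn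
    interval_cases d <;> omega
  · rw [if_neg h4] at hn
    have e : (1 : ℤ) = n ^ 2 * d := by
      have : (1 : ℝ) = n ^ 2 * d := by linarith
      exact_mod_cast this
    have hdd : (d : ℤ) ∣ 1 := ⟨n ^ 2, by rw [e]; ring⟩
    have hdn : d ∣ 1 := by exact_mod_cast hdd
    exact hd1 (Nat.dvd_one.1 hdn)

/-- **`g₂ ≠ 0`.** -/
theorem g2_ne (d : ℕ) (hd3 : d ≠ 3) (Λ : PeriodPair) (h1 : Λ.ω₁ = 1)
    (h2 : Λ.ω₂ = if d % 4 = 3 then (1 + √(d : ℝ) * Complex.I) / 2 else √(d : ℝ) * Complex.I) :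
    Λ.g₂ ≠ 0 := by
  intro h
  have hone : (1 : ℂ) ∈ Λ.lattice := by
    rw [← h1]
    exact Λ.ω₁_mem_lattice
  have hs3 : (√(3 : ℝ) : ℂ) ^ 2 = 3 := by
    rw [← Complex.ofReal_pow, Real.sq_sqrt (by norm_num)]
    norm_num
  set c : ℂ := (1 + √(3 : ℝ) * Complex.I) / 2 with hc
  have hc2 : c ^ 2 = c - 1 := by
    rw [hc]
    linear_combination (Complex.I ^ 2 / 4) * hs3 + (3 / 4 : ℂ) * Complex.I_sq
  have hc3 : c ^ 3 = -1 := by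
    linear_combination (c + 1) * hc2
  have hc6 : c ^ 6 = 1 := by
    linear_combination (c ^ 3 - 1) * hc3
  have hc0 : c ≠ 0 := by
    intro h0
    rw [h0] at hc6
    norm_num at hc6
  have hI := Nz_mul Λ c hc0 (by rw [h, mul_zero]) (by rw [hc6, one_mul]) 1 hone
  rw [mul_one] at hI
  obtain ⟨n, hn⟩ := Nz_sq d Λ h1 h2 _ hI
  have him : c.im = √(3 : ℝ) / 2 := by
    rw [hc]
    simp
  rw [him, div_pow, Real.sq_sqrt (by norm_num)] at hn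
  by_cases h4 : d % 4 = 3
  · rw [if_pos h4] at hn
    have e : (3 : ℤ) = n ^ 2 * d := by
      have : (3 : ℝ) = n ^ 2 * d := by linarith
      exact_mod_cast this
    have hdd : (d : ℤ) ∣ 3 := ⟨n ^ 2, by rw [e]; ring⟩
    have hdn : d ∣ 3 := by exact_mod_cast hdd
    rcases (Nat.dvd_prime Nat.prime_three).1 hdn with h5 | h5
    · omega
    · exact hd3 h5
  · rw [if_neg h4] at hn
    have e : (3 : ℤ) = 4 * (n ^ 2 * d) := by
      have : (3 : ℝ) = 4 * (n ^ 2 * d) := by linarith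
      exact_mod_cast this
    omega

/-- The function `weber` of the case `g₂ g₃ ≠ 0`. -/
theorem weberFn_eq (Λ : PeriodPair) (h2 : Λ.g₂ ≠ 0) (h3 : Λ.g₃ ≠ 0) (z : ℂ) :
    weberFn Λ z = weber Λ z := by
  unfold weberFn weber
  rw [if_neg h3, if_neg h2]

theorem WeberFd_eq (ι : Omega →+* ℂ) (Λ : PeriodPair) (h2 : Λ.g₂ ≠ 0) (h3 : Λ.g₃ ≠ 0) :
    WeberFd ι Λ = WeberField ι Λ := by
  unfold WeberFd WeberField
  simp only [weberFn_eq Λ h2 h3]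

end Pool.Agent.MuP
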