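import Pool.Agent.Lib.DN.Pub.Defs
import Pool.Agent.Lib.DK.B.AllG
import Pool.Agent.Lib.DI.Defs

/-!
# MP_d0239a_nt: `j(Λ)` and the values of Weber's function are in the field of the cross ratios

`(℘(z₁) - ℘(z₂))/(℘(z₃) - ℘(z₂))`, `z₁, z₂, z₃` nonzero torsion points: these numbers generate a field which
contains `j(Λ)` and the values of Weber's function, in all cases (also `g₂ = 0` or `g₃ = 0`).
-/

set_option autoImplicit false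

noncomputable section

namespace Pool.Agent.MuP

open Pool.Agent.DKB (inL wp wd)
open Pool.Agent.DI (io io_inj)

/-- The cross ratio. -/
def crL (Λ : PeriodPair) (z₁ z₂ z₃ : ℂ) : ℂ :=
  (Λ.weierstrassP z₁ - Λ.weierstrassP z₂) / (Λ.weierstrassP z₃ - Λ.weierstrassP z₂)

private theorem Web_j {u a b : ℂ} (hu : u ≠ 0) :
    1728 * (u ^ 2 * a) ^ 3 / ((u ^ 2 * a) ^ 3 - 27 * (u ^ 3 * b) ^ 2) =
      1728 * a ^ 3 / (a ^ 3 - 27 * b ^ 2) := by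
  have e : (u ^ 2 * a) ^ 3 - 27 * (u ^ 3 * b) ^ 2 = u ^ 6 * (a ^ 3 - 27 * b ^ 2) := by ring
  have e' : 1728 * (u ^ 2 * a) ^ 3 = u ^ 6 * (1728 * a ^ 3) := by ring
  rw [e, e', mul_div_mul_left _ _ (pow_ne_zero 6 hu)]

private theorem Web_1 {u a b p : ℂ} (hu : u ≠ 0) :
    (u ^ 2 * a) * (u ^ 3 * b) / ((u ^ 2 * a) ^ 3 - 27 * (u ^ 3 * b) ^ 2) * (u * p) =
      a * b / (a ^ 3 - 27 * b ^ 2) * p := by
  have e : (u ^ 2 * a) ^ 3 - 27 * (u ^ 3 * b) ^ 2 = u ^ 6 * (a ^ 3 - 27 * b ^ 2) := by ring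
  have e' : (u ^ 2 * a) * (u ^ 3 * b) * (u * p) = u ^ 6 * (a * b * p) := by ring
  rw [e, div_mul_eq_mul_div, e', mul_div_mul_left _ _ (pow_ne_zero 6 hu), div_mul_eq_mul_div]

private theorem Web_2 {u a b p : ℂ} (hu : u ≠ 0) :
    (u ^ 2 * a) ^ 2 / ((u ^ 2 * a) ^ 3 - 27 * (u ^ 3 * b) ^ 2) * (u * p) ^ 2 =
      a ^ 2 / (a ^ 3 - 27 * b ^ 2) * p ^ 2 := by
  have e : (u ^ 2 * a) ^ 3 - 27 * (u ^ 3 * b) ^ 2 = u ^ 6 * (a ^ 3 - 27 * b ^ 2) := by ring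
  have e' : (u ^ 2 * a) ^ 2 * (u * p) ^ 2 = u ^ 6 * (a ^ 2 * p ^ 2) := by ring
  rw [e, div_mul_eq_mul_div, e', mul_div_mul_left _ _ (pow_ne_zero 6 hu), div_mul_eq_mul_div]

private theorem Web_3 {u a b p : ℂ} (hu : u ≠ 0) :
    (u ^ 3 * b) / ((u ^ 2 * a) ^ 3 - 27 * (u ^ 3 * b) ^ 2) * (u * p) ^ 3 =
      b / (a ^ 3 - 27 * b ^ 2) * p ^ 3 := by
  have e : (u ^ 2 * a) ^ 3 - 27 * (u ^ 3 * b) ^ 2 = u ^ 6 * (a ^ 3 - 27 * b ^ 2) := by ring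
  have e' : (u ^ 3 * b) * (u * p) ^ 3 = u ^ 6 * (b * p ^ 3) := by ring
  rw [e, div_mul_eq_mul_div, e', mul_div_mul_left _ _ (pow_ne_zero 6 hu), div_mul_eq_mul_div]

/-- **The values of Weber's function, from the cross ratios.** -/
theorem web_mem (Λ : PeriodPair) (M : IntermediateField ℚ (AlgebraicClosure ℚ))
    (hM : ∀ z₁ z₂ z₃ : ℂ, IsTorPt Λ z₁ → IsTorPt Λ z₂ → IsTorPt Λ z₃ →
      ∃ x ∈ M, io x = crL Λ z₁ z₂ z₃) :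
    (∃ y ∈ M, io y = jInv Λ) ∧ ∀ z : ℂ, IsTorPt Λ z → ∃ y ∈ M, io y = weberFn Λ z := by
  have hL1 : inL Λ (Λ.ω₁ / 2 + Λ.ω₁ / 2) := by
    rw [add_halves]
    exact Λ.ω₁_mem_lattice
  have hL2 : inL Λ (Λ.ω₂ / 2 + Λ.ω₂ / 2) := by
    rw [add_halves]
    exact Λ.ω₂_mem_lattice
  have hn1 : ¬ inL Λ (Λ.ω₁ / 2) := Λ.ω₁_div_two_notMem_lattice
  have hn2 : ¬ inL Λ (Λ.ω₂ / 2) := Λ.ω₂_div_two_notMem_lattice
  have hn3 : ¬ inL Λ (Λ.ω₁ / 2 + Λ.ω₂ / 2) := by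
    intro h
    obtain ⟨m, n, e⟩ := (DKB.inL_iff).1 h
    have h0 := Λ.indep
    rw [LinearIndependent.pair_iff] at h0
    obtain ⟨e1, -⟩ := h0 (1 / 2 - m) (1 / 2 - n) (by
      simp only [Complex.real_smul]
      push_cast
      linear_combination e)
    have e2 : (2 * m : ℤ) = 1 := by
      have : (2 * m : ℝ) = 1 := by linarith
      exact_mod_cast this
    omega
  have t1 : IsTorPt Λ (Λ.ω₁ / 2) := ⟨hn1, 2, by norm_num, by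
    have e : ((2 : ℕ) : ℂ) * (Λ.ω₁ / 2) = Λ.ω₁ := by push_cast; ring
    rw [e]
    exact Λ.ω₁_mem_lattice⟩
  have t2 : IsTorPt Λ (Λ.ω₂ / 2) := ⟨hn2, 2, by norm_num, by
    have e : ((2 : ℕ) : ℂ) * (Λ.ω₂ / 2) = Λ.ω₂ := by push_cast; ring
    rw [e]
    exact Λ.ω₂_mem_lattice⟩
  have t3 : IsTorPt Λ (Λ.ω₁ / 2 + Λ.ω₂ / 2) := ⟨hn3, 2, by norm_num, by
    have e : ((2 : ℕ) : ℂ) * (Λ.ω₁ / 2 + Λ.ω₂ / 2) = Λ.ω₁ + Λ.ω₂ := by push_cast; ring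
    rw [e]
    exact add_mem Λ.ω₁_mem_lattice Λ.ω₂_mem_lattice⟩
  obtain ⟨d1, -, -, d4, d5, d6⟩ := (DKB.gDis Λ).2.1 _ _ hL1 hL2 hn1 hn2 hn3
  obtain ⟨a, haM, ha⟩ := hM _ _ _ t3 t1 t2
  unfold crL at ha
  change wp Λ (Λ.ω₁ / 2) + wp Λ (Λ.ω₂ / 2) + wp Λ (Λ.ω₁ / 2 + Λ.ω₂ / 2) = 0 at d4
  change io a = (wp Λ (Λ.ω₁ / 2 + Λ.ω₂ / 2) - wp Λ (Λ.ω₁ / 2)) /
    (wp Λ (Λ.ω₂ / 2) - wp Λ (Λ.ω₁ / 2)) at ha
  obtain ⟨e1, he1⟩ : ∃ e1, wp Λ (Λ.ω₁ / 2) = e1 := ⟨_, rfl⟩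
  obtain ⟨e2, he2⟩ : ∃ e2, wp Λ (Λ.ω₂ / 2) = e2 := ⟨_, rfl⟩
  obtain ⟨e3, he3⟩ : ∃ e3, wp Λ (Λ.ω₁ / 2 + Λ.ω₂ / 2) = e3 := ⟨_, rfl⟩
  rw [he1, he2] at d1 d5
  rw [he1, he2, he3] at d4 d6 ha
  obtain ⟨u, hu'⟩ : ∃ u, e2 - e1 = u := ⟨_, rfl⟩
  have hu : u ≠ 0 := by
    rw [← hu']
    exact sub_ne_zero.2 (Ne.symm d1)
  have r3 : e3 - e1 = u * io a := by
    rw [ha, hu']
    field_simp
  have hc3 : (3 : AlgebraicClosure ℚ) ∈ M := by exact_mod_cast natCast_mem M 3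
  have hc4 : (4 : AlgebraicClosure ℚ) ∈ M := by exact_mod_cast natCast_mem M 4
  have hc27 : (27 : AlgebraicClosure ℚ) ∈ M := by exact_mod_cast natCast_mem M 27
  have hc1728 : (1728 : AlgebraicClosure ℚ) ∈ M := by exact_mod_cast natCast_mem M 1728
  obtain ⟨p, hp⟩ : ∃ p : AlgebraicClosure ℚ, p = (1 + a) / 3 := ⟨_, rfl⟩
  have hpM : p ∈ M := by
    rw [hp]
    exact div_mem (add_mem (one_mem _) haM) hc3
  have hip : io p = (1 + io a) / 3 := by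
    rw [hp, map_div₀, map_add, map_one, map_ofNat]
  have q1 : e1 = u * (-io p) := by
    rw [hip]
    linear_combination (1 / 3) * d4 - (1 / 3) * r3 - (1 / 3) * hu'
  have q2 : e2 = u * (1 - io p) := by
    linear_combination q1 + hu'
  have q3 : e3 = u * (io a - io p) := by
    linear_combination q1 + r3
  obtain ⟨G2, hG2⟩ : ∃ G2 : AlgebraicClosure ℚ, G2 = 4 * (p ^ 2 + -p * (1 - p) + (1 - p) ^ 2) :=
    ⟨_, rfl⟩
  obtain ⟨G3, hG3⟩ : ∃ G3 : AlgebraicClosure ℚ, G3 = 4 * (-p) * (1 - p) * (a - p) := ⟨_, rfl⟩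
  have h1p : 1 - p ∈ M := sub_mem (one_mem _) hpM
  have hG2M : G2 ∈ M := by
    rw [hG2]
    exact mul_mem hc4 (add_mem (add_mem (pow_mem hpM 2) (mul_mem (neg_mem hpM) h1p)) (pow_mem h1p 2))
  have hG3M : G3 ∈ M := by
    rw [hG3]
    exact mul_mem (mul_mem (mul_mem hc4 (neg_mem hpM)) h1p) (sub_mem haM hpM)
  have hi2 : io G2 = 4 * (io p ^ 2 + -io p * (1 - io p) + (1 - io p) ^ 2) := by
    rw [hG2]
    simp only [map_mul, map_add, map_sub, map_neg, map_pow, map_one, map_ofNat]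
  have hi3 : io G3 = 4 * (-io p) * (1 - io p) * (io a - io p) := by
    rw [hG3]
    simp only [map_mul, map_sub, map_neg, map_one, map_ofNat]
  have g2 : Λ.g₂ = u ^ 2 * io G2 := by
    rw [d5, hi2, q1, q2]
    ring
  have g3 : Λ.g₃ = u ^ 3 * io G3 := by
    rw [d6, hi3, q1, q2, q3]
    ring
  have hden : G2 ^ 3 - 27 * G3 ^ 2 ∈ M :=
    sub_mem (pow_mem hG2M 3) (mul_mem hc27 (pow_mem hG3M 2))
  refine ⟨⟨1728 * G2 ^ 3 / (G2 ^ 3 - 27 * G3 ^ 2), div_mem (mul_mem hc1728 (pow_mem hG2M 3)) hden, ?_⟩,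
    ?_⟩
  · unfold jInv
    rw [g2, g3, Web_j hu]
    simp only [map_div₀, map_mul, map_sub, map_pow, map_ofNat]
  · intro z hz
    obtain ⟨x, hxM, hx⟩ := hM z _ _ hz t1 t2
    unfold crL at hx
    change io x = (wp Λ z - wp Λ (Λ.ω₁ / 2)) / (wp Λ (Λ.ω₂ / 2) - wp Λ (Λ.ω₁ / 2)) at hx
    rw [he1, he2, hu'] at hx
    have hwz : Λ.weierstrassP z = u * (io x - io p) := by
      have h1 : wp Λ z - e1 = u * io x := by
        rw [hx]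
        field_simp
      change wp Λ z = _
      linear_combination h1 + q1
    have hq : x - p ∈ M := sub_mem hxM hpM
    unfold weberFn
    split_ifs with h3 h2
    · refine ⟨G2 ^ 2 / (G2 ^ 3 - 27 * G3 ^ 2) * (x - p) ^ 2,
        mul_mem (div_mem (pow_mem hG2M 2) hden) (pow_mem hq 2), ?_⟩
      rw [g2, g3, hwz, Web_2 hu]
      simp only [map_div₀, map_mul, map_sub, map_pow, map_ofNat]
    · refine ⟨G3 / (G2 ^ 3 - 27 * G3 ^ 2) * (x - p) ^ 3,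
        mul_mem (div_mem hG3M hden) (pow_mem hq 3), ?_⟩
      rw [g2, g3, hwz, Web_3 hu]
      simp only [map_div₀, map_mul, map_sub, map_pow, map_ofNat]
    · refine ⟨G2 * G3 / (G2 ^ 3 - 27 * G3 ^ 2) * (x - p),
        mul_mem (div_mem (mul_mem hG2M hG3M) hden) hq, ?_⟩
      rw [g2, g3, hwz, Web_1 hu]
      simp only [map_div₀, map_mul, map_sub, map_pow, map_ofNat]

end Pool.Agent.MuP
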